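import Pool.Agent.R544.AS.Core

/-!
# Arc-disjoint antistrong and strong spanning subdigraphs: the subdigraphs for a satisfying assignment
-/

set_option autoImplicit false
set_option linter.unusedSectionVars false
set_option linter.unusedSimpArgs false

namespace Pool.Agent.R544.AS

/-- The arcs of the strong subdigraph for the cell values `σ`. -/
def A2r (D : Dat) (σ : ℕ → Prop) (u v : ℕ) : Prop :=
  (u = 0 ∧ v = 1) ∨ (u = 1 ∧ v = 2) ∨ (u = 2 ∧ v = 3) ∨ (u = 3 ∧ v = 0) ∨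
  (∃ i < D.n, (¬ σ i ∧ u = 4 * i + 4 ∧ v = 4 * i + 6) ∨ (¬ σ i ∧ u = 4 * i + 5 ∧ v = 4 * i + 7) ∨
    (σ i ∧ u = 4 * i + 4 ∧ v = 4 * i + 7) ∨ (σ i ∧ u = 4 * i + 5 ∧ v = 4 * D.nx i + 6)) ∨
  (∃ i < D.n, D.att i ∧ u = cp D i ∧ v = 4 * D.lk i + 4) ∨
  (∃ i < D.n, (u = 4 * i + 6 ∨ u = 4 * i + 7) ∧ ¬ (D.att i ∧ u = cp D i) ∧ v = 1) ∨
  (∃ i < D.n, u = 1 ∧ (v = 4 * i + 5 ∨ (v = 4 * i + 4 ∧ ¬ D.att i)))

variable {D : Dat} {σ : ℕ → Prop}

theorem a2_ar {u v : ℕ} (h : A2r D σ u v) : Ar D u v := by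
  rcases h with h | h | h | h | ⟨i, hi, h | h | h | h⟩ | h | h | h
  · left; omega
  · left; omega
  · left; omega
  · left; omega
  · right; left; exact ⟨i, hi, by omega⟩
  · right; right; left; exact ⟨i, hi, by omega⟩
  · right; left; exact ⟨i, hi, by omega⟩
  · right; right; left; exact ⟨i, hi, by omega⟩
  · right; right; right; right; right; left; exact h
  · right; right; right; right; right; right; left; exact h
  · right; right; right; right; right; right; right; right; exact h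

/-- The arcs of the antistrong subdigraph. -/
def S1 (D : Dat) (σ : ℕ → Prop) : Set (ℕ × ℕ) := {a | Ar D a.1 a.2 ∧ ¬ A2r D σ a.1 a.2}

/-- The arcs of the strong subdigraph. -/
def S2 (D : Dat) (σ : ℕ → Prop) : Set (ℕ × ℕ) := {a | A2r D σ a.1 a.2}

theorem mem_S1 {u v : ℕ} : (u, v) ∈ S1 D σ ↔ Ar D u v ∧ ¬ A2r D σ u v := Iff.rfl

theorem mem_S2 {u v : ℕ} : (u, v) ∈ S2 D σ ↔ A2r D σ u v := Iff.rfl

/-! ### The antistrong subdigraph -/

theorem s1_core {u v : ℕ} (hu : u < 4) (hv : v < 4) (huv : u ≠ v) (h : (u + 1) % 4 ≠ v) :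
    (u, v) ∈ S1 D σ := by
  refine ⟨Or.inl ⟨hu, hv, huv⟩, ?_⟩
  simp only
  rintro (h | h | h | h | ⟨i, hi, h | h | h | h⟩ | ⟨i, hi, ha, h, h'⟩ | ⟨i, hi, h, h1, h'⟩ |
    ⟨i, hi, h, h'⟩)
  · omega
  · omega
  · omega
  · omega
  · omega
  · omega
  · omega
  · omega
  · omega
  · omega
  · omega

theorem s1_2p {i p : ℕ} (hi : i < D.n) (hp : p = 4 * i + 6 ∨ p = 4 * i + 7) :
    (2, p) ∈ S1 D σ := by
  refine ⟨Or.inr (Or.inr (Or.inr (Or.inl ⟨i, hi, rfl, hp⟩))), ?_⟩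
  simp only
  rintro (h | h | h | h | ⟨k, hk, h | h | h | h⟩ | ⟨k, hk, ha, h, h'⟩ | ⟨k, hk, h, h1, h'⟩ |
    ⟨k, hk, h, h'⟩)
  · omega
  · omega
  · omega
  · omega
  · omega
  · omega
  · omega
  · omega
  · omega
  · omega
  · omega

theorem s1_p0 {i p : ℕ} (hi : i < D.n) (hp : p = 4 * i + 6 ∨ p = 4 * i + 7) :
    (p, 0) ∈ S1 D σ := by
  refine ⟨Or.inr (Or.inr (Or.inr (Or.inr (Or.inl ⟨i, hi, hp, rfl⟩)))), ?_⟩
  simp only
  rintro (h | h | h | h | ⟨k, hk, h | h | h | h⟩ | ⟨k, hk, ha, h, h'⟩ | ⟨k, hk, h, h1, h'⟩ |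
    ⟨k, hk, h, h'⟩)
  · omega
  · omega
  · omega
  · omega
  · omega
  · omega
  · omega
  · omega
  · omega
  · omega
  · omega

theorem s1_0x {i x : ℕ} (hi : i < D.n) (hx : x = 4 * i + 4 ∨ x = 4 * i + 5) :
    (0, x) ∈ S1 D σ := by
  refine ⟨Or.inr (Or.inr (Or.inr (Or.inr (Or.inr (Or.inr (Or.inr (Or.inl ⟨i, hi, rfl, hx⟩))))))),
    ?_⟩
  simp only
  rintro (h | h | h | h | ⟨k, hk, h | h | h | h⟩ | ⟨k, hk, ha, h, h'⟩ | ⟨k, hk, h, h1, h'⟩ |
    ⟨k, hk, h, h'⟩)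
  · omega
  · omega
  · omega
  · omega
  · omega
  · omega
  · omega
  · omega
  · have := cp_cases D k
    omega
  · omega
  · omega

theorem s1_x0 {i : ℕ} (hi : i < D.n) : ∃ p, (4 * i + 4, p) ∈ S1 D σ ∧
    ∃ k < D.n, p = 4 * k + 6 ∨ p = 4 * k + 7 := by
  by_cases hs : σ i
  · refine ⟨4 * i + 6, ⟨Or.inr (Or.inl ⟨i, hi, rfl, Or.inl rfl⟩), ?_⟩, i, hi, Or.inl rfl⟩
    simp only
    rintro (h | h | h | h | ⟨k, hk, h | h | h | h⟩ | ⟨k, hk, ha, h, h'⟩ | ⟨k, hk, h, h1, h'⟩ |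
      ⟨k, hk, h, h'⟩)
    · omega
    · omega
    · omega
    · omega
    · obtain rfl : i = k := by omega
      exact h.1 hs
    · omega
    · omega
    · omega
    · have := cp_cases D k
      omega
    · omega
    · omega
  · refine ⟨4 * i + 7, ⟨Or.inr (Or.inl ⟨i, hi, rfl, Or.inr rfl⟩), ?_⟩, i, hi, Or.inr rfl⟩
    simp only
    rintro (h | h | h | h | ⟨k, hk, h | h | h | h⟩ | ⟨k, hk, ha, h, h'⟩ | ⟨k, hk, h, h1, h'⟩ |
      ⟨k, hk, h, h'⟩)
    · omega
    · omega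
    · omega
    · omega
    · omega
    · omega
    · obtain rfl : i = k := by omega
      exact hs h.1
    · omega
    · have := cp_cases D k
      omega
    · omega
    · omega

theorem s1_x1 (hD : Good D) {i : ℕ} (hi : i < D.n) : ∃ p, (4 * i + 5, p) ∈ S1 D σ ∧
    ∃ k < D.n, p = 4 * k + 6 ∨ p = 4 * k + 7 := by
  by_cases hs : σ i
  · refine ⟨4 * i + 7, ⟨Or.inr (Or.inr (Or.inl ⟨i, hi, rfl, Or.inl rfl⟩)), ?_⟩, i, hi, Or.inr rfl⟩
    simp only
    rintro (h | h | h | h | ⟨k, hk, h | h | h | h⟩ | ⟨k, hk, ha, h, h'⟩ | ⟨k, hk, h, h1, h'⟩ |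
      ⟨k, hk, h, h'⟩)
    · omega
    · omega
    · omega
    · omega
    · omega
    · obtain rfl : i = k := by omega
      exact h.1 hs
    · omega
    · omega
    · have := cp_cases D k
      omega
    · omega
    · omega
  · refine ⟨4 * D.nx i + 6, ⟨Or.inr (Or.inr (Or.inl ⟨i, hi, rfl, Or.inr rfl⟩)), ?_⟩, D.nx i,
      hD.nx_lt i hi, Or.inl rfl⟩
    simp only
    rintro (h | h | h | h | ⟨k, hk, h | h | h | h⟩ | ⟨k, hk, ha, h, h'⟩ | ⟨k, hk, h, h1, h'⟩ |
      ⟨k, hk, h, h'⟩)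
    · omega
    · omega
    · omega
    · omega
    · omega
    · omega
    · omega
    · obtain rfl : i = k := by omega
      exact hs h.1
    · have := cp_cases D k
      omega
    · omega
    · omega

theorem reach_root (hD : Good D) {v : ℕ} (hv : v < 4 * D.n + 4) (b : Bool) :
    (BG (S1 D σ)).Reachable (v, b) (0, true) := by
  have adj : ∀ {u w : ℕ}, (u, w) ∈ S1 D σ → (BG (S1 D σ)).Reachable (u, false) (w, true) :=
    fun h => (bg_arc h).reachable
  have adj' : ∀ {u w : ℕ}, (u, w) ∈ S1 D σ → (BG (S1 D σ)).Reachable (w, true) (u, false) :=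
    fun h => (bg_arc h).reachable.symm
  have z1 : (BG (S1 D σ)).Reachable (1, false) (0, true) :=
    adj (s1_core (by omega) (by omega) (by omega) (by omega))
  have z2 : (BG (S1 D σ)).Reachable (2, false) (0, true) :=
    adj (s1_core (by omega) (by omega) (by omega) (by omega))
  have z3' : (BG (S1 D σ)).Reachable (3, true) (0, true) :=
    (adj' (s1_core (u := 1) (by omega) (by omega) (by omega) (by omega))).trans z1
  have z0 : (BG (S1 D σ)).Reachable (0, false) (0, true) :=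
    (adj (s1_core (v := 3) (by omega) (by omega) (by omega) (by omega))).trans z3'
  have z2' : (BG (S1 D σ)).Reachable (2, true) (0, true) :=
    (adj' (s1_core (u := 0) (by omega) (by omega) (by omega) (by omega))).trans z0
  have z1' : (BG (S1 D σ)).Reachable (1, true) (0, true) :=
    (adj' (s1_core (u := 2) (by omega) (by omega) (by omega) (by omega))).trans z2
  have z3 : (BG (S1 D σ)).Reachable (3, false) (0, true) :=
    (adj (s1_core (v := 1) (by omega) (by omega) (by omega) (by omega))).trans z1'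
  have hp' : ∀ k < D.n, ∀ p, (p = 4 * k + 6 ∨ p = 4 * k + 7) →
      (BG (S1 D σ)).Reachable (p, true) (0, true) := fun k hk p hp =>
    (adj' (s1_2p hk hp)).trans z2
  have hcase : v < 4 ∨ ∃ i < D.n, v = 4 * i + 4 ∨ v = 4 * i + 5 ∨ v = 4 * i + 6 ∨ v = 4 * i + 7 := by
    by_cases h : v < 4
    · exact Or.inl h
    · exact Or.inr ⟨v / 4 - 1, by omega, by omega⟩
  rcases hcase with h | ⟨i, hi, h | h | h | h⟩
  · obtain rfl | rfl | rfl | rfl : v = 0 ∨ v = 1 ∨ v = 2 ∨ v = 3 := by omega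
    · cases b
      · exact z0
      · exact SimpleGraph.Reachable.refl _
    · cases b
      · exact z1
      · exact z1'
    · cases b
      · exact z2
      · exact z2'
    · cases b
      · exact z3
      · exact z3'
  · cases b
    · obtain ⟨p, hp, k, hk, hpk⟩ := s1_x0 (D := D) (σ := σ) hi
      rw [h]
      exact (adj hp).trans (hp' k hk p hpk)
    · exact (adj' (s1_0x hi (Or.inl h))).trans z0
  · cases b
    · obtain ⟨p, hp, k, hk, hpk⟩ := s1_x1 (σ := σ) hD hi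
      rw [h]
      exact (adj hp).trans (hp' k hk p hpk)
    · exact (adj' (s1_0x hi (Or.inr h))).trans z0
  · cases b
    · exact adj (s1_p0 hi (Or.inl h))
    · exact hp' i hi v (Or.inl h)
  · cases b
    · exact adj (s1_p0 hi (Or.inr h))
    · exact hp' i hi v (Or.inr h)

theorem antistrong_S1 (hD : Good D) {V : List ℕ} (hV : ∀ v, v ∈ V ↔ v < 4 * D.n + 4)
    (hV3 : 3 ≤ V.length) : Antistrong V (S1 D σ) := by
  refine ⟨hV3, fun x hx y hy _ => trail_of_reachable ?_⟩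
  exact (reach_root hD ((hV x).1 hx) false).trans (reach_root hD ((hV y).1 hy) true).symm

/-! ### The strong subdigraph -/

/-- Reachability in the strong subdigraph. -/
def R2 (D : Dat) (σ : ℕ → Prop) : ℕ → ℕ → Prop :=
  Relation.ReflTransGen (fun u v => (u, v) ∈ S2 D σ)

theorem r2_single {u v : ℕ} (h : A2r D σ u v) : R2 D σ u v := Relation.ReflTransGen.single h

theorem r2_trans {u v w : ℕ} (h : R2 D σ u v) (h' : R2 D σ v w) : R2 D σ u w :=
  Relation.ReflTransGen.trans h h'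

theorem nx_surj' (hD : Good D) : ∀ k < D.n, ∃ i < D.n, D.nx i = k := by
  intro k hk
  let f : Fin D.n → Fin D.n := fun i => ⟨D.nx i, hD.nx_lt i i.2⟩
  have hf : Function.Injective f := fun i j hij => by
    simp only [f, Fin.mk.injEq] at hij
    exact Fin.ext (hD.nx_inj i i.2 j j.2 hij)
  obtain ⟨i, hi⟩ := (Finite.injective_iff_surjective.1 hf) ⟨k, hk⟩
  exact ⟨i, i.2, by simpa [f] using hi⟩

theorem strong_S2 (hD : Good D) {V : List ℕ} (hV : ∀ v, v ∈ V ↔ v < 4 * D.n + 4)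
    (hσ : ∀ i < D.n, (σ (D.nx i) ↔ σ i))
    (h : ∀ j < D.m, ∃ i < D.n, D.att i ∧ D.cl i = j ∧ (σ i ↔ D.pos i = true)) :
    Strong V (S2 D σ) := by
  classical
  -- the arcs
  have b01 : R2 D σ 0 1 := r2_single (Or.inl ⟨rfl, rfl⟩)
  have b12 : R2 D σ 1 2 := r2_single (Or.inr (Or.inl ⟨rfl, rfl⟩))
  have b23 : R2 D σ 2 3 := r2_single (Or.inr (Or.inr (Or.inl ⟨rfl, rfl⟩)))
  have b30 : R2 D σ 3 0 := r2_single (Or.inr (Or.inr (Or.inr (Or.inl ⟨rfl, rfl⟩))))
  have c1 : ∀ i < D.n, ¬ σ i → R2 D σ (4 * i + 4) (4 * i + 6) := fun i hi hs =>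
    r2_single (Or.inr (Or.inr (Or.inr (Or.inr (Or.inl ⟨i, hi, Or.inl ⟨hs, rfl, rfl⟩⟩)))))
  have c2 : ∀ i < D.n, ¬ σ i → R2 D σ (4 * i + 5) (4 * i + 7) := fun i hi hs =>
    r2_single (Or.inr (Or.inr (Or.inr (Or.inr (Or.inl ⟨i, hi, Or.inr (Or.inl ⟨hs, rfl, rfl⟩)⟩)))))
  have c3 : ∀ i < D.n, σ i → R2 D σ (4 * i + 4) (4 * i + 7) := fun i hi hs =>
    r2_single (Or.inr (Or.inr (Or.inr (Or.inr (Or.inl
      ⟨i, hi, Or.inr (Or.inr (Or.inl ⟨hs, rfl, rfl⟩))⟩)))))
  have c4 : ∀ i < D.n, σ i → R2 D σ (4 * i + 5) (4 * D.nx i + 6) := fun i hi hs =>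
    r2_single (Or.inr (Or.inr (Or.inr (Or.inr (Or.inl
      ⟨i, hi, Or.inr (Or.inr (Or.inr ⟨hs, rfl, rfl⟩))⟩)))))
  have d1 : ∀ i < D.n, D.att i → R2 D σ (cp D i) (4 * D.lk i + 4) := fun i hi ha =>
    r2_single (Or.inr (Or.inr (Or.inr (Or.inr (Or.inr (Or.inl ⟨i, hi, ha, rfl, rfl⟩))))))
  have d2 : ∀ i < D.n, ∀ p, (p = 4 * i + 6 ∨ p = 4 * i + 7) → ¬ (D.att i ∧ p = cp D i) →
      R2 D σ p 1 := fun i hi p hp hn =>
    r2_single (Or.inr (Or.inr (Or.inr (Or.inr (Or.inr (Or.inr (Or.inl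
      ⟨i, hi, hp, hn, rfl⟩)))))))
  have e1 : ∀ i < D.n, R2 D σ 1 (4 * i + 5) := fun i hi =>
    r2_single (Or.inr (Or.inr (Or.inr (Or.inr (Or.inr (Or.inr (Or.inr
      ⟨i, hi, rfl, Or.inl rfl⟩)))))))
  have e2 : ∀ i < D.n, ¬ D.att i → R2 D σ 1 (4 * i + 4) := fun i hi hn =>
    r2_single (Or.inr (Or.inr (Or.inr (Or.inr (Or.inr (Or.inr (Or.inr
      ⟨i, hi, rfl, Or.inr ⟨rfl, hn⟩⟩)))))))
  -- false occurrences lead to the next one
  have hF : ∀ i < D.n, D.att i → ¬ (σ i ↔ D.pos i = true) → R2 D σ (4 * i + 4) (cp D i) := by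
    intro i hi ha hf
    rcases cp_cases D i with ⟨hp, hp'⟩ | ⟨hp, hp'⟩
    · rw [hp]
      exact c1 i hi (by simpa [hp'] using hf)
    · rw [hp]
      exact c3 i hi (by simpa [hp'] using hf)
  -- true occurrences lead to `1`
  have hT : ∀ i < D.n, D.att i → (σ i ↔ D.pos i = true) → R2 D σ (4 * i + 4) 1 := by
    intro i hi ha ht
    rcases cp_cases D i with ⟨hp, hp'⟩ | ⟨hp, hp'⟩
    · have hs : σ i := ht.2 hp'
      exact r2_trans (c3 i hi hs) (d2 i hi _ (Or.inr rfl) (fun h => by omega))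
    · have hs : ¬ σ i := by rw [ht, hp']; simp
      exact r2_trans (c1 i hi hs) (d2 i hi _ (Or.inl rfl) (fun h => by omega))
  -- the head of a true occurrence is reached from `1`
  have hT' : ∀ i < D.n, D.att i → (σ i ↔ D.pos i = true) → R2 D σ 1 (cp D i) := by
    intro i hi ha ht
    rcases cp_cases D i with ⟨hp, hp'⟩ | ⟨hp, hp'⟩
    · have hs : σ i := ht.2 hp'
      obtain ⟨k, hk, hki⟩ := nx_surj' hD i hi
      have hsk : σ k := (hσ k hk).1 (hki ▸ hs)
      have := c4 k hk hsk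
      rw [hki] at this
      rw [hp]
      exact r2_trans (e1 k hk) this
    · have hs : ¬ σ i := by rw [ht, hp']; simp
      rw [hp]
      exact r2_trans (e1 i hi) (c2 i hi hs)
  -- every occurrence leads to `1`
  have g1 : ∀ i < D.n, D.att i → R2 D σ (4 * i + 4) 1 := by
    intro i hi ha
    obtain ⟨k, hk, hka, hkc, hkt⟩ := h (D.cl i) (hD.cl_lt i hi ha)
    have hi1 := hD.lk_lt i hi ha
    have ha1 := hD.lk_att i hi ha
    have hi2 := hD.lk_lt _ hi1 ha1
    have ha2 := hD.lk_att _ hi1 ha1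
    by_cases t0 : σ i ↔ D.pos i = true
    · exact hT i hi ha t0
    refine r2_trans (hF i hi ha t0) (r2_trans (d1 i hi ha) ?_)
    by_cases t1 : σ (D.lk i) ↔ D.pos (D.lk i) = true
    · exact hT _ hi1 ha1 t1
    refine r2_trans (hF _ hi1 ha1 t1) (r2_trans (d1 _ hi1 ha1) ?_)
    rcases hD.cov i hi ha k hk hka hkc with rfl | rfl | rfl
    · exact absurd hkt t0
    · exact absurd hkt t1
    · exact hT _ hi2 ha2 hkt
  -- every occurrence is reached from `1`
  have g2 : ∀ i < D.n, D.att i → R2 D σ 1 (4 * i + 4) ∧ R2 D σ 1 (cp D i) := by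
    intro i hi ha
    obtain ⟨k, hk, hka, hkc, hkt⟩ := h (D.cl i) (hD.cl_lt i hi ha)
    have hk1 := hD.lk_lt k hk hka
    have hka1 := hD.lk_att k hk hka
    have hk2 := hD.lk_lt _ hk1 hka1
    have hka2 := hD.lk_att _ hk1 hka1
    have f0 : R2 D σ 1 (cp D k) := hT' k hk hka hkt
    have f1 : R2 D σ 1 (4 * D.lk k + 4) := r2_trans f0 (d1 k hk hka)
    have f2 : R2 D σ 1 (cp D (D.lk k)) := by
      by_cases t1 : σ (D.lk k) ↔ D.pos (D.lk k) = true
      · exact hT' _ hk1 hka1 t1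
      · exact r2_trans f1 (hF _ hk1 hka1 t1)
    have f3 : R2 D σ 1 (4 * D.lk (D.lk k) + 4) := r2_trans f2 (d1 _ hk1 hka1)
    have f4 : R2 D σ 1 (cp D (D.lk (D.lk k))) := by
      by_cases t1 : σ (D.lk (D.lk k)) ↔ D.pos (D.lk (D.lk k)) = true
      · exact hT' _ hk2 hka2 t1
      · exact r2_trans f3 (hF _ hk2 hka2 t1)
    have f5 : R2 D σ 1 (4 * k + 4) := by
      have := r2_trans f4 (d1 _ hk2 hka2)
      rwa [hD.lk3 k hk hka] at this
    rcases hD.cov k hk hka i hi ha hkc.symm with rfl | rfl | rfl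
    · exact ⟨f5, f0⟩
    · exact ⟨f1, f2⟩
    · exact ⟨f3, f4⟩
  -- all vertices lead to `1`
  have hp1 : ∀ i < D.n, ∀ p, (p = 4 * i + 6 ∨ p = 4 * i + 7) → R2 D σ p 1 := by
    intro i hi p hp
    by_cases hc : D.att i ∧ p = cp D i
    · rw [hc.2]
      exact r2_trans (d1 i hi hc.1) (g1 _ (hD.lk_lt i hi hc.1) (hD.lk_att i hi hc.1))
    · exact d2 i hi p hp hc
  have to1 : ∀ v < 4 * D.n + 4, R2 D σ v 1 := by
    intro v hv
    have hcase : v < 4 ∨ ∃ i < D.n, v = 4 * i + 4 ∨ v = 4 * i + 5 ∨ v = 4 * i + 6 ∨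
        v = 4 * i + 7 := by
      by_cases h : v < 4
      · exact Or.inl h
      · exact Or.inr ⟨v / 4 - 1, by omega, by omega⟩
    rcases hcase with h | ⟨i, hi, h | h | h | h⟩
    · obtain rfl | rfl | rfl | rfl : v = 0 ∨ v = 1 ∨ v = 2 ∨ v = 3 := by omega
      · exact b01
      · exact Relation.ReflTransGen.refl
      · exact r2_trans b23 (r2_trans b30 b01)
      · exact r2_trans b30 b01
    · subst h
      by_cases hs : σ i
      · exact r2_trans (c3 i hi hs) (hp1 i hi _ (Or.inr rfl))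
      · exact r2_trans (c1 i hi hs) (hp1 i hi _ (Or.inl rfl))
    · subst h
      by_cases hs : σ i
      · exact r2_trans (c4 i hi hs) (hp1 _ (hD.nx_lt i hi) _ (Or.inl rfl))
      · exact r2_trans (c2 i hi hs) (hp1 i hi _ (Or.inr rfl))
    · exact hp1 i hi v (Or.inl h)
    · exact hp1 i hi v (Or.inr h)
  -- all vertices are reached from `1`
  have fx0 : ∀ i < D.n, R2 D σ 1 (4 * i + 4) := by
    intro i hi
    by_cases ha : D.att i
    · exact (g2 i hi ha).1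
    · exact e2 i hi ha
  have of1 : ∀ v < 4 * D.n + 4, R2 D σ 1 v := by
    intro v hv
    have hcase : v < 4 ∨ ∃ i < D.n, v = 4 * i + 4 ∨ v = 4 * i + 5 ∨ v = 4 * i + 6 ∨
        v = 4 * i + 7 := by
      by_cases h : v < 4
      · exact Or.inl h
      · exact Or.inr ⟨v / 4 - 1, by omega, by omega⟩
    rcases hcase with h | ⟨i, hi, h | h | h | h⟩
    · obtain rfl | rfl | rfl | rfl : v = 0 ∨ v = 1 ∨ v = 2 ∨ v = 3 := by omega
      · exact r2_trans b12 (r2_trans b23 b30)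
      · exact Relation.ReflTransGen.refl
      · exact b12
      · exact r2_trans b12 b23
    · subst h
      exact fx0 i hi
    · subst h
      exact e1 i hi
    · subst h
      by_cases hs : σ i
      · obtain ⟨k, hk, hki⟩ := nx_surj' hD i hi
        have hsk : σ k := (hσ k hk).1 (hki ▸ hs)
        have := c4 k hk hsk
        rw [hki] at this
        exact r2_trans (e1 k hk) this
      · exact r2_trans (fx0 i hi) (c1 i hi hs)
    · subst h
      by_cases hs : σ i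
      · exact r2_trans (fx0 i hi) (c3 i hi hs)
      · exact r2_trans (e1 i hi) (c2 i hi hs)
  intro x hx y hy
  exact r2_trans (to1 x ((hV x).1 hx)) (of1 y ((hV y).1 hy))

end Pool.Agent.R544.AS
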