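import Pool.Agent.R544.AS.Trail

/-!
# Arc-disjoint antistrong and strong spanning subdigraphs: the core of the reduction
-/

set_option autoImplicit false
set_option linter.unusedSectionVars false
set_option linter.unusedSimpArgs false

namespace Pool.Agent.R544.AS

/-- The data of the construction. -/
structure Dat where
  /-- number of cells -/
  n : ℕ
  /-- number of clauses -/
  m : ℕ
  /-- next cell -/
  nx : ℕ → ℕ
  /-- the cell is the cell of an occurrence -/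
  att : ℕ → Prop
  /-- the clause of the occurrence -/
  cl : ℕ → ℕ
  /-- the sign of the occurrence -/
  pos : ℕ → Bool
  /-- the next occurrence in the clause -/
  lk : ℕ → ℕ

/-- The properties of the data. -/
structure Good (D : Dat) : Prop where
  nx_lt : ∀ i < D.n, D.nx i < D.n
  nx_inj : ∀ i < D.n, ∀ k < D.n, D.nx i = D.nx k → i = k
  lk_lt : ∀ i < D.n, D.att i → D.lk i < D.n
  lk_att : ∀ i < D.n, D.att i → D.att (D.lk i)
  lk_cl : ∀ i < D.n, D.att i → D.cl (D.lk i) = D.cl i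
  lk3 : ∀ i < D.n, D.att i → D.lk (D.lk (D.lk i)) = i
  cov : ∀ i < D.n, D.att i → ∀ k < D.n, D.att k → D.cl k = D.cl i →
    k = i ∨ k = D.lk i ∨ k = D.lk (D.lk i)
  cl_lt : ∀ i < D.n, D.att i → D.cl i < D.m
  ex : ∀ j < D.m, ∃ i < D.n, D.att i ∧ D.cl i = j

variable (D : Dat)

/-- The head which the occurrence in the cell `i` reaches if its literal is false. -/
def cp (i : ℕ) : ℕ := 4 * i + 6 + (if D.pos i = true then 0 else 1)

theorem cp_cases (i : ℕ) : (cp D i = 4 * i + 6 ∧ D.pos i = true) ∨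
    (cp D i = 4 * i + 7 ∧ D.pos i = false) := by
  unfold cp
  cases D.pos i <;> simp

/-- The arcs. -/
def Ar (u v : ℕ) : Prop :=
  (u < 4 ∧ v < 4 ∧ u ≠ v) ∨
  (∃ i < D.n, u = 4 * i + 4 ∧ (v = 4 * i + 6 ∨ v = 4 * i + 7)) ∨
  (∃ i < D.n, u = 4 * i + 5 ∧ (v = 4 * i + 7 ∨ v = 4 * D.nx i + 6)) ∨
  (∃ i < D.n, u = 2 ∧ (v = 4 * i + 6 ∨ v = 4 * i + 7)) ∨
  (∃ i < D.n, (u = 4 * i + 6 ∨ u = 4 * i + 7) ∧ v = 0) ∨
  (∃ i < D.n, D.att i ∧ u = cp D i ∧ v = 4 * D.lk i + 4) ∨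
  (∃ i < D.n, (u = 4 * i + 6 ∨ u = 4 * i + 7) ∧ ¬ (D.att i ∧ u = cp D i) ∧ v = 1) ∨
  (∃ i < D.n, u = 0 ∧ (v = 4 * i + 4 ∨ v = 4 * i + 5)) ∨
  (∃ i < D.n, u = 1 ∧ (v = 4 * i + 5 ∨ (v = 4 * i + 4 ∧ ¬ D.att i)))

variable {D}

theorem ar_inV (hD : Good D) {u v : ℕ} (h : Ar D u v) : u < 4 * D.n + 4 ∧ v < 4 * D.n + 4 := by
  rcases h with h | ⟨i, hi, h⟩ | ⟨i, hi, h⟩ | ⟨i, hi, h⟩ | ⟨i, hi, h⟩ | ⟨i, hi, ha, h, h'⟩ |
    ⟨i, hi, h, _, h'⟩ | ⟨i, hi, h⟩ | ⟨i, hi, h, h'⟩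
  · omega
  · omega
  · have := hD.nx_lt i hi
    omega
  · omega
  · omega
  · have := hD.lk_lt i hi ha
    have := cp_cases D i
    omega
  · omega
  · omega
  · omega

theorem ar_ne {u v : ℕ} (h : Ar D u v) : u ≠ v := by
  rcases h with h | ⟨i, hi, h⟩ | ⟨i, hi, h⟩ | ⟨i, hi, h⟩ | ⟨i, hi, h⟩ | ⟨i, hi, ha, h, h'⟩ |
    ⟨i, hi, h, _, h'⟩ | ⟨i, hi, h⟩ | ⟨i, hi, h, h'⟩
  · omega
  · omega
  · omega
  · omega
  · omega
  · have := cp_cases D i
    omega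
  · omega
  · omega
  · omega

/-! ### Neighbours -/

theorem out_x0 {i v : ℕ} (h : Ar D (4 * i + 4) v) : v = 4 * i + 6 ∨ v = 4 * i + 7 := by
  rcases h with h | ⟨k, hk, h⟩ | ⟨k, hk, h⟩ | ⟨k, hk, h⟩ | ⟨k, hk, h⟩ | ⟨k, hk, ha, h, h'⟩ |
    ⟨k, hk, h, _, h'⟩ | ⟨k, hk, h⟩ | ⟨k, hk, h, h'⟩
  · omega
  · omega
  · omega
  · omega
  · omega
  · have := cp_cases D k
    omega
  · omega
  · omega
  · omega

theorem out_x1 {i v : ℕ} (h : Ar D (4 * i + 5) v) : v = 4 * i + 7 ∨ v = 4 * D.nx i + 6 := by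
  rcases h with h | ⟨k, hk, h⟩ | ⟨k, hk, h⟩ | ⟨k, hk, h⟩ | ⟨k, hk, h⟩ | ⟨k, hk, ha, h, h'⟩ |
    ⟨k, hk, h, _, h'⟩ | ⟨k, hk, h⟩ | ⟨k, hk, h, h'⟩
  · omega
  · omega
  · obtain rfl : i = k := by omega
    exact h.2
  · omega
  · omega
  · have := cp_cases D k
    omega
  · omega
  · omega
  · omega

theorem out_cp {i v : ℕ} (ha : D.att i) (h : Ar D (cp D i) v) : v = 0 ∨ v = 4 * D.lk i + 4 := by
  have hc := cp_cases D i
  rcases h with h | ⟨k, hk, h⟩ | ⟨k, hk, h⟩ | ⟨k, hk, h⟩ | ⟨k, hk, h⟩ | ⟨k, hk, ha', h, h'⟩ |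
    ⟨k, hk, h, h1, h'⟩ | ⟨k, hk, h⟩ | ⟨k, hk, h, h'⟩
  · omega
  · omega
  · omega
  · omega
  · omega
  · have := cp_cases D k
    obtain rfl : i = k := by omega
    exact Or.inr h'
  · obtain rfl : i = k := by omega
    exact absurd ⟨ha, rfl⟩ h1
  · omega
  · omega

theorem in_p0 {k u : ℕ} (h : Ar D u (4 * k + 6)) :
    u = 4 * k + 4 ∨ (∃ i < D.n, D.nx i = k ∧ u = 4 * i + 5) ∨ u = 2 := by
  rcases h with h | ⟨i, hi, h⟩ | ⟨i, hi, h⟩ | ⟨i, hi, h⟩ | ⟨i, hi, h⟩ | ⟨i, hi, ha', h, h'⟩ |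
    ⟨i, hi, h, _, h'⟩ | ⟨i, hi, h⟩ | ⟨i, hi, h, h'⟩
  · omega
  · omega
  · exact Or.inr (Or.inl ⟨i, hi, by omega, h.1⟩)
  · omega
  · omega
  · omega
  · omega
  · omega
  · omega

theorem in_p1 {k u : ℕ} (h : Ar D u (4 * k + 7)) : u = 4 * k + 4 ∨ u = 4 * k + 5 ∨ u = 2 := by
  rcases h with h | ⟨i, hi, h⟩ | ⟨i, hi, h⟩ | ⟨i, hi, h⟩ | ⟨i, hi, h⟩ | ⟨i, hi, ha', h, h'⟩ |
    ⟨i, hi, h, _, h'⟩ | ⟨i, hi, h⟩ | ⟨i, hi, h, h'⟩ <;> omega

theorem in_lk (hD : Good D) {i u : ℕ} (hi : i < D.n) (ha : D.att i) (h : Ar D u (4 * D.lk i + 4)) :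
    u = 0 ∨ u = cp D i := by
  rcases h with h | ⟨k, hk, h⟩ | ⟨k, hk, h⟩ | ⟨k, hk, h⟩ | ⟨k, hk, h⟩ | ⟨k, hk, ha', h, h'⟩ |
    ⟨k, hk, h, _, h'⟩ | ⟨k, hk, h⟩ | ⟨k, hk, h, h'⟩
  · omega
  · omega
  · omega
  · omega
  · omega
  · have e : D.lk k = D.lk i := by omega
    have e1 := hD.lk3 i hi ha
    have e2 := hD.lk3 k hk ha'
    rw [e] at e2
    rw [← e2, e1] at h
    exact Or.inr h
  · omega
  · omega
  · rcases h' with h' | ⟨h', hn⟩
    · omega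
    · obtain e : k = D.lk i := by omega
      rw [e] at hn
      exact absurd (hD.lk_att i hi ha) hn

theorem two_of {A : Set (ℕ × ℕ)} {V : List ℕ} {x z : ℕ} (h : Strong V A) (hx : x ∈ V) (hz : z ∈ V)
    (hxz : x ≠ z) : ∃ v, (x, v) ∈ A := by
  rcases Relation.ReflTransGen.cases_head (h x hx z hz) with h | ⟨v, h, -⟩
  · exact absurd h hxz
  · exact ⟨v, h⟩

theorem two_of' {A : Set (ℕ × ℕ)} {V : List ℕ} {x z : ℕ} (h : Strong V A) (hx : x ∈ V) (hz : z ∈ V)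
    (hxz : x ≠ z) : ∃ u, (u, x) ∈ A := by
  rcases Relation.ReflTransGen.cases_tail (h z hz x hx) with h | ⟨v, -, h⟩
  · exact absurd h hxz
  · exact ⟨v, h⟩

theorem fwd (hD : Good D) {V : List ℕ} (hV : ∀ v, v ∈ V ↔ v < 4 * D.n + 4) {A₁ A₂ : Set (ℕ × ℕ)}
    (hA₁ : ∀ a ∈ A₁, Ar D a.1 a.2) (hA₂ : ∀ a ∈ A₂, Ar D a.1 a.2) (hd : ∀ a ∈ A₁, a ∉ A₂)
    (h1 : Antistrong V A₁) (h2 : Strong V A₂) :
    ∃ σ : ℕ → Prop, (∀ i < D.n, (σ (D.nx i) ↔ σ i)) ∧
      ∀ j < D.m, ∃ i < D.n, D.att i ∧ D.cl i = j ∧ (σ i ↔ D.pos i = true) := by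
  classical
  have hz : ∀ z < 4, z ∈ V := fun z hz => (hV z).2 (by omega)
  have hx0V : ∀ i < D.n, 4 * i + 4 ∈ V := fun i hi => (hV _).2 (by omega)
  have hx1V : ∀ i < D.n, 4 * i + 5 ∈ V := fun i hi => (hV _).2 (by omega)
  have hp0V : ∀ i < D.n, 4 * i + 6 ∈ V := fun i hi => (hV _).2 (by omega)
  have hp1V : ∀ i < D.n, 4 * i + 7 ∈ V := fun i hi => (hV _).2 (by omega)
  -- the tails `x`
  have out1 : ∀ x ∈ V, x ≠ 0 → ∃ v, (x, v) ∈ A₁ := by
    intro x hx hx0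
    obtain ⟨w, hw, -⟩ := trail_first (h1.2 x hx 0 (hz 0 (by omega)) hx0)
    exact ⟨w, hw⟩
  have out2 : ∀ x ∈ V, x ≠ 0 → ∃ v, (x, v) ∈ A₂ := fun x hx hx0 =>
    two_of h2 hx (hz 0 (by omega)) hx0
  have in2 : ∀ x ∈ V, x ≠ 0 → ∃ u, (u, x) ∈ A₂ := fun x hx hx0 =>
    two_of' h2 hx (hz 0 (by omega)) hx0
  have x0a : ∀ i < D.n, ((4 * i + 4, 4 * i + 6) ∈ A₁ ↔ (4 * i + 4, 4 * i + 7) ∉ A₁) ∧
      ((4 * i + 4, 4 * i + 6) ∈ A₂ ↔ (4 * i + 4, 4 * i + 7) ∉ A₂) := by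
    intro i hi
    obtain ⟨v, hv⟩ := out1 _ (hx0V i hi) (by omega)
    obtain ⟨w, hw⟩ := out2 _ (hx0V i hi) (by omega)
    have hv' := out_x0 (hA₁ _ hv)
    have hw' := out_x0 (hA₂ _ hw)
    have d1 := hd (4 * i + 4, 4 * i + 6)
    have d2 := hd (4 * i + 4, 4 * i + 7)
    rcases hv' with rfl | rfl <;> rcases hw' with rfl | rfl <;> tauto
  have x1a : ∀ i < D.n, ((4 * i + 5, 4 * i + 7) ∈ A₁ ↔ (4 * i + 5, 4 * D.nx i + 6) ∉ A₁) ∧
      ((4 * i + 5, 4 * i + 7) ∈ A₂ ↔ (4 * i + 5, 4 * D.nx i + 6) ∉ A₂) := by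
    intro i hi
    obtain ⟨v, hv⟩ := out1 _ (hx1V i hi) (by omega)
    obtain ⟨w, hw⟩ := out2 _ (hx1V i hi) (by omega)
    have hv' := out_x1 (hA₁ _ hv)
    have hw' := out_x1 (hA₂ _ hw)
    have d1 := hd (4 * i + 5, 4 * i + 7)
    have d2 := hd (4 * i + 5, 4 * D.nx i + 6)
    rcases hv' with rfl | rfl <;> rcases hw' with rfl | rfl <;> tauto
  -- the arcs from `2`
  have q0 : ∀ k < D.n, (2, 4 * k + 6) ∈ A₁ := by
    intro k hk
    obtain ⟨u, hu, h⟩ := trail_last (h1.2 0 (hz 0 (by omega)) _ (hp0V k hk) (by omega))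
    rcases in_p0 (hA₁ _ hu) with rfl | ⟨i, hi, hik, rfl⟩ | rfl
    · rcases h with h | ⟨w, hw, h⟩
      · omega
      · rcases out_x0 (hA₁ _ h) with rfl | rfl
        · exact absurd rfl hw
        · exact absurd h ((x0a k hk).1.1 hu)
    · rcases h with h | ⟨w, hw, h⟩
      · omega
      · rcases out_x1 (hA₁ _ h) with rfl | rfl
        · rw [← hik] at hu
          exact absurd hu ((x1a i hi).1.1 h)
        · rw [hik] at hw
          exact absurd rfl hw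
    · exact hu
  have q1 : ∀ k < D.n, (2, 4 * k + 7) ∈ A₁ := by
    intro k hk
    obtain ⟨u, hu, h⟩ := trail_last (h1.2 0 (hz 0 (by omega)) _ (hp1V k hk) (by omega))
    rcases in_p1 (hA₁ _ hu) with rfl | rfl | rfl
    · rcases h with h | ⟨w, hw, h⟩
      · omega
      · rcases out_x0 (hA₁ _ h) with rfl | rfl
        · exact absurd hu ((x0a k hk).1.1 h)
        · exact absurd rfl hw
    · rcases h with h | ⟨w, hw, h⟩
      · omega
      · rcases out_x1 (hA₁ _ h) with rfl | rfl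
        · exact absurd rfl hw
        · exact absurd h ((x1a k hk).1.1 hu)
    · exact hu
  -- the heads are entered from the tails in `A₂`
  have r0 : ∀ i < D.n, (4 * i + 5, 4 * D.nx i + 6) ∉ A₂ →
      (4 * D.nx i + 4, 4 * D.nx i + 6) ∈ A₂ := by
    intro i hi hn
    have hk := hD.nx_lt i hi
    obtain ⟨u, hu⟩ := in2 _ (hp0V _ hk) (by omega)
    rcases in_p0 (hA₂ _ hu) with rfl | ⟨i', hi', hik, rfl⟩ | rfl
    · exact hu
    · obtain rfl := hD.nx_inj i' hi' i hi hik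
      exact absurd hu hn
    · exact absurd hu (hd _ (q0 _ hk))
  have r1 : ∀ i < D.n, (4 * i + 4, 4 * i + 7) ∉ A₂ → (4 * i + 5, 4 * i + 7) ∈ A₂ := by
    intro i hi hn
    obtain ⟨u, hu⟩ := in2 _ (hp1V _ hi) (by omega)
    rcases in_p1 (hA₂ _ hu) with rfl | rfl | rfl
    · exact absurd hu hn
    · exact hu
    · exact absurd hu (hd _ (q1 _ hi))
  -- the values of the cells
  let σ : ℕ → Prop := fun i => (4 * i + 4, 4 * i + 7) ∈ A₂
  have hmono : ∀ i < D.n, σ (D.nx i) → σ i := by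
    intro i hi h
    by_contra hn
    have e1 := r1 i hi hn
    have e2 := (x1a i hi).2.1 e1
    have e3 := r0 i hi e2
    exact (x0a _ (hD.nx_lt i hi)).2.1 e3 h
  have hσ : ∀ i < D.n, (σ (D.nx i) ↔ σ i) := by
    have hsub : (Finset.range D.n).filter (fun i => σ (D.nx i)) ⊆
        (Finset.range D.n).filter (fun i => σ i) := by
      intro i hi
      rw [Finset.mem_filter, Finset.mem_range] at hi ⊢
      exact ⟨hi.1, hmono i hi.1 hi.2⟩
    have hcard : ((Finset.range D.n).filter (fun i => σ i)).card ≤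
        ((Finset.range D.n).filter (fun i => σ (D.nx i))).card := by
      have himg : (Finset.range D.n).filter (fun i => σ i) ⊆
          ((Finset.range D.n).filter (fun i => σ (D.nx i))).image D.nx := by
        intro k hk
        rw [Finset.mem_filter, Finset.mem_range] at hk
        have hsurj : ∃ i < D.n, D.nx i = k := by
          let f : Fin D.n → Fin D.n := fun i => ⟨D.nx i, hD.nx_lt i i.2⟩
          have hf : Function.Injective f := fun i j hij => by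
            simp only [f, Fin.mk.injEq] at hij
            exact Fin.ext (hD.nx_inj i i.2 j j.2 hij)
          obtain ⟨i, hi⟩ := (Finite.injective_iff_surjective.1 hf) ⟨k, hk.1⟩
          exact ⟨i, i.2, by simpa [f] using hi⟩
        obtain ⟨i, hi, rfl⟩ := hsurj
        exact Finset.mem_image.2 ⟨i, by
          rw [Finset.mem_filter, Finset.mem_range]
          exact ⟨hi, hk.2⟩, rfl⟩
      exact (Finset.card_le_card himg).trans Finset.card_image_le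
    have heq := Finset.eq_of_subset_of_card_le hsub hcard
    intro i hi
    refine ⟨hmono i hi, fun h => ?_⟩
    have : i ∈ (Finset.range D.n).filter (fun i => σ (D.nx i)) := by
      rw [heq, Finset.mem_filter, Finset.mem_range]
      exact ⟨hi, h⟩
    exact (Finset.mem_filter.1 this).2
  refine ⟨σ, hσ, ?_⟩
  -- the clauses
  intro j hj
  by_contra hne
  push Not at hne
  have hfalse : ∀ i < D.n, D.att i → D.cl i = j → ∀ v, (4 * i + 4, v) ∈ A₂ → v = cp D i := by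
    intro i hi ha hc v hv
    have h3 := hne i hi ha hc
    have h4 := (x0a i hi).2
    have hp := cp_cases D i
    rcases hp with ⟨hp, hp'⟩ | ⟨hp, hp'⟩
    · have hns : ¬ σ i := by
        rcases h3 with ⟨_, h3⟩ | ⟨h3, _⟩
        · exact absurd hp' h3
        · exact h3
      rcases out_x0 (hA₂ _ hv) with rfl | rfl
      · exact hp.symm
      · exact absurd hv hns
    · have hs : σ i := by
        rcases h3 with ⟨h3, _⟩ | ⟨_, h3⟩
        · exact h3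
        · rw [hp'] at h3
          simp at h3
      rcases out_x0 (hA₂ _ hv) with rfl | rfl
      · exact absurd hs (h4.1 hv)
      · exact hp.symm
  have hcpout : ∀ i < D.n, D.att i → ∀ v, (cp D i, v) ∈ A₂ → v = 4 * D.lk i + 4 := by
    intro i hi ha v hv
    have hlkV : 4 * D.lk i + 4 ∈ V := hx0V _ (hD.lk_lt i hi ha)
    have hcpV : cp D i ∈ V := (hV _).2 (by have := cp_cases D i; omega)
    have hcp1 : cp D i ≠ 1 := by have := cp_cases D i; omega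
    rcases out_cp ha (hA₂ _ hv) with rfl | h
    · exfalso
      -- the arc from `cp i` to `0` is in `A₁`
      obtain ⟨w, hw, h⟩ := trail_first (h1.2 _ hcpV 1 (hz 1 (by omega)) hcp1)
      rcases out_cp ha (hA₁ _ hw) with rfl | rfl
      · exact hd _ hw hv
      · rcases h with h | ⟨u, hu, h⟩
        · omega
        · rcases in_lk hD hi ha (hA₁ _ h) with rfl | rfl
          · obtain ⟨u', hu'⟩ := in2 _ hlkV (by omega)
            rcases in_lk hD hi ha (hA₂ _ hu') with rfl | rfl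
            · exact hd _ h hu'
            · exact hd _ hw hu'
          · exact hu rfl
    · exact h
  obtain ⟨i₀, hi₀, ha₀, hc₀⟩ := hD.ex j hj
  have hreach : ∀ v, Relation.ReflTransGen (fun u v => (u, v) ∈ A₂) (4 * i₀ + 4) v →
      ∃ i < D.n, D.att i ∧ D.cl i = j ∧ (v = 4 * i + 4 ∨ v = cp D i) := by
    intro v hv
    induction hv with
    | refl => exact ⟨i₀, hi₀, ha₀, hc₀, Or.inl rfl⟩
    | @tail b c _ hbc ih =>
      obtain ⟨i, hi, ha, hc, h | h⟩ := ih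
      · rw [h] at hbc
        exact ⟨i, hi, ha, hc, Or.inr (hfalse i hi ha hc _ hbc)⟩
      · rw [h] at hbc
        exact ⟨D.lk i, hD.lk_lt i hi ha, hD.lk_att i hi ha, (hD.lk_cl i hi ha).trans hc,
          Or.inl (hcpout i hi ha _ hbc)⟩
  obtain ⟨i, hi, ha, hc, h⟩ := hreach 0 (h2 _ (hx0V i₀ hi₀) 0 (hz 0 (by omega)))
  have := cp_cases D i
  omega

end Pool.Agent.R544.AS
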