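import Mathlib

/-!
# Arc-disjoint antistrong and strong spanning subdigraphs: the problem
-/

namespace Pool.Agent.R544.AS

/-- An instance `(V, A)`: the list of the vertices and the list of the arcs. -/
abbrev Inst : Type := List ℕ × List (ℕ × ℕ)

/-- The instance is a finite digraph without loops and parallel arcs (opposite arcs are allowed). -/
def IsDigraph (I : Inst) : Prop :=
  I.1.Nodup ∧ I.2.Nodup ∧ ∀ a ∈ I.2, a.1 ∈ I.1 ∧ a.2 ∈ I.1 ∧ a.1 ≠ a.2

/-- The arc number `i` of an antidirected walk `v 0, v 1, …` whose first arc is forward: the forward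
arc from `v i` to `v (i + 1)` if `i` is even, and the backward arc from `v (i + 1)` to `v i` if `i`
is odd. -/
def trArc (v : ℕ → ℕ) (i : ℕ) : ℕ × ℕ := if i % 2 = 0 then (v i, v (i + 1)) else (v (i + 1), v i)

/-- The set `A` of arcs contains a forward antidirected trail from `x` to `y`: a walk
`x = v 0, v 1, …, v (2 k + 1) = y` whose arcs are alternately forward and backward, the first and
the last one being forward, and pairwise different. -/
def FwdTrail (A : Set (ℕ × ℕ)) (x y : ℕ) : Prop :=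
  ∃ (k : ℕ) (v : ℕ → ℕ), v 0 = x ∧ v (2 * k + 1) = y ∧ (∀ i ≤ 2 * k, trArc v i ∈ A) ∧
    ∀ i ≤ 2 * k, ∀ j ≤ 2 * k, trArc v i = trArc v j → i = j

/-- The digraph with the vertices `V` and the arcs `A` is antistrong. -/
def Antistrong (V : List ℕ) (A : Set (ℕ × ℕ)) : Prop :=
  3 ≤ V.length ∧ ∀ x ∈ V, ∀ y ∈ V, x ≠ y → FwdTrail A x y

/-- The digraph with the vertices `V` and the arcs `A` is strongly connected. -/
def Strong (V : List ℕ) (A : Set (ℕ × ℕ)) : Prop :=
  ∀ x ∈ V, ∀ y ∈ V, Relation.ReflTransGen (fun u v => (u, v) ∈ A) x y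

/-- The digraph has two arc-disjoint spanning subdigraphs, the first one antistrong and the second
one strongly connected. -/
def AntistrongStrong (I : Inst) : Prop :=
  IsDigraph I ∧ ∃ A₁ A₂ : Set (ℕ × ℕ), (∀ a ∈ A₁, a ∈ I.2) ∧ (∀ a ∈ A₂, a ∈ I.2) ∧
    Disjoint A₁ A₂ ∧ Antistrong I.1 A₁ ∧ Strong I.1 A₂

end Pool.Agent.R544.AS
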