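import Pool.Agent.R544.TF.Red
import Pool.Agent.R544.AS.Back
import Pool.Agent.H614R2.DPO.TP1
import Pool.Agent.H614R2.DPO.TG2

/-!
# Arc-disjoint antistrong and strong spanning subdigraphs: the reduction from 3SAT and membership
in NP
-/

set_option autoImplicit false

namespace Pool.Agent.R544.AS

open Pool.Agent.NPC Pool.Agent.R544
open Pool.Agent.R544.TF (pp_exlt pp_alllt uPoly_3m)

/-- The next occurrence in the clause. -/
def nx3 (o : ℕ) : ℕ := 3 * (o / 3) + (o % 3 + 1) % 3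

/-- The data of the construction. -/
def dat (φ : F3) : Dat where
  n := 3 * φ.length * (3 * φ.length)
  m := φ.length
  nx := nxt φ
  att := fun i => cell φ (i % (3 * φ.length)) = i
  cl := fun i => i % (3 * φ.length) / 3
  pos := fun i => (lt φ (i % (3 * φ.length))).1
  lk := fun i => cell φ (nx3 (i % (3 * φ.length)))

theorem nx3_lt {m o : ℕ} (h : o < 3 * m) : nx3 o < 3 * m := by unfold nx3; omega

theorem nx3_div (o : ℕ) : nx3 o / 3 = o / 3 := by unfold nx3; omega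

theorem nx3_three (o : ℕ) : nx3 (nx3 (nx3 o)) = o := by unfold nx3; omega

theorem good_dat {φ : F3} (hb : Bounded3 φ) : Good (dat φ) := by
  have hmod : ∀ i < (dat φ).n, i % (3 * φ.length) < 3 * φ.length := fun i hi =>
    Nat.mod_lt _ (pos_of_lt_cells hi)
  have hlk : ∀ i < (dat φ).n, (dat φ).lk i % (3 * φ.length) = nx3 (i % (3 * φ.length)) :=
    fun i hi => cell_mod (nx3_lt (hmod i hi))
  have hlt : ∀ i < (dat φ).n, (dat φ).lk i < (dat φ).n := fun i hi =>
    cell_lt hb (nx3_lt (hmod i hi))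
  refine ⟨fun i hi => nxt_lt φ hi, fun i hi k _ h => nxt_inj φ hi h, fun i hi _ => hlt i hi,
    ?_, ?_, ?_, ?_, ?_, ?_⟩
  · intro i hi _
    change cell φ ((dat φ).lk i % (3 * φ.length)) = (dat φ).lk i
    rw [hlk i hi]
    rfl
  · intro i hi _
    change (dat φ).lk i % (3 * φ.length) / 3 = i % (3 * φ.length) / 3
    rw [hlk i hi, nx3_div]
  · intro i hi ha
    change cell φ (nx3 ((dat φ).lk ((dat φ).lk i) % (3 * φ.length))) = i
    rw [hlk _ (hlt i hi), hlk i hi, nx3_three]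
    exact ha
  · intro i hi _ k hk hka hc
    change k % (3 * φ.length) / 3 = i % (3 * φ.length) / 3 at hc
    change cell φ (k % (3 * φ.length)) = k at hka
    have h1 : k % (3 * φ.length) = i % (3 * φ.length) ∨
        k % (3 * φ.length) = nx3 (i % (3 * φ.length)) ∨
        k % (3 * φ.length) = nx3 (nx3 (i % (3 * φ.length))) := by
      generalize k % (3 * φ.length) = a at *
      generalize i % (3 * φ.length) = b at *
      unfold nx3
      omega
    rcases h1 with h1 | h1 | h1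
    · left
      rename_i hia
      change cell φ (i % (3 * φ.length)) = i at hia
      rw [← hka, h1, hia]
    · right; left
      rw [← hka, h1]
      rfl
    · right; right
      change k = cell φ (nx3 ((dat φ).lk i % (3 * φ.length)))
      rw [hlk i hi, ← h1, hka]
  · intro i hi _
    have := hmod i hi
    change i % (3 * φ.length) / 3 < φ.length
    omega
  · intro j hj
    have h3 : 3 * j < 3 * φ.length := by change j < φ.length at hj; omega
    refine ⟨cell φ (3 * j), cell_lt hb h3, ?_, ?_⟩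
    · change cell φ (cell φ (3 * j) % (3 * φ.length)) = cell φ (3 * j)
      rw [cell_mod h3]
    · change cell φ (3 * j) % (3 * φ.length) / 3 = j
      rw [cell_mod h3]
      omega

/-- The vertices. -/
def lV (φ : F3) : List ℕ := List.range (4 * (3 * φ.length * (3 * φ.length)) + 4)

open Classical in
/-- The instance. -/
noncomputable def red (φ : F3) : Inst :=
  (lV φ, (lV φ ×ˢ lV φ).filter (fun a => decide (Ar (dat φ) a.1 a.2)))

theorem uPoly_n {α : Type} [TEnc α] {f : α → F3} (hf : NPC.Poly f) :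
    UPoly (fun a => (dat (f a)).n) := UPoly.mul (uPoly_3m hf) (uPoly_3m hf)

theorem poly_lV : NPC.Poly lV := by
  have h := uPoly_n (f := fun φ : F3 => φ) NPC.Poly.id
  exact (UPoly.add (UPoly.mul (UPoly.const 4) h) (UPoly.const 4)).range

theorem pp_att {α : Type} [TEnc α] {f : α → F3} {g : α → ℕ} (hf : NPC.Poly f)
    (hg : NPC.Poly g) : PP (fun a => (dat (f a)).att (g a)) := by
  unfold dat
  exact PP.eq (by fun_prop) hg

theorem poly_cp {α : Type} [TEnc α] {f : α → F3} {g : α → ℕ} (hf : NPC.Poly f)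
    (hg : NPC.Poly g) : NPC.Poly (fun a => cp (dat (f a)) (g a)) := by
  unfold cp dat
  simp only
  have h : PP (fun a => (lt (f a) (g a % (3 * (f a).length))).1 = true) :=
    PP.eq (by fun_prop) (by fun_prop)
  have h2 : NPC.Poly (fun a => if (lt (f a) (g a % (3 * (f a).length))).1 = true then 0 else 1) :=
    PP.ite h (NPC.Poly.const 0) (NPC.Poly.const 1)
  fun_prop

theorem poly_nx {α : Type} [TEnc α] {f : α → F3} {g : α → ℕ} (hf : NPC.Poly f)
    (hg : NPC.Poly g) : NPC.Poly (fun a => (dat (f a)).nx (g a)) := poly_nxt hf hg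

theorem poly_lk {α : Type} [TEnc α] {f : α → F3} {g : α → ℕ} (hf : NPC.Poly f)
    (hg : NPC.Poly g) : NPC.Poly (fun a => (dat (f a)).lk (g a)) := by
  unfold dat nx3
  fun_prop

theorem pp_Ar : PP (fun x : F3 × (ℕ × ℕ) => Ar (dat x.1) x.2.1 x.2.2) := by
  unfold Ar
  have hn := uPoly_n (f := fun x : F3 × (ℕ × ℕ) => x.1) (by fun_prop)
  have hf : NPC.Poly (fun x : (F3 × (ℕ × ℕ)) × ℕ => x.1.1) := by fun_prop
  have hi : NPC.Poly (fun x : (F3 × (ℕ × ℕ)) × ℕ => x.2) := by fun_prop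
  have hu : NPC.Poly (fun x : (F3 × (ℕ × ℕ)) × ℕ => x.1.2.1) := by fun_prop
  have hv : NPC.Poly (fun x : (F3 × (ℕ × ℕ)) × ℕ => x.1.2.2) := by fun_prop
  have hcp := poly_cp hf hi
  have hnx := poly_nx hf hi
  have hlk := poly_lk hf hi
  have hat := pp_att hf hi
  refine PP.or ?_ (PP.or ?_ (PP.or ?_ (PP.or ?_ (PP.or ?_ (PP.or ?_ (PP.or ?_ (PP.or ?_ ?_)))))))
  · exact PP.and (PP.lt (by fun_prop) (by fun_prop)) (PP.and (PP.lt (by fun_prop) (by fun_prop))
      (PP.ne (by fun_prop) (by fun_prop)))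
  · exact pp_exlt (r := fun (x : F3 × (ℕ × ℕ)) i => x.2.1 = 4 * i + 4 ∧
      (x.2.2 = 4 * i + 6 ∨ x.2.2 = 4 * i + 7)) hn
      (PP.and (PP.eq hu (by fun_prop)) (PP.or (PP.eq hv (by fun_prop)) (PP.eq hv (by fun_prop))))
  · exact pp_exlt (r := fun (x : F3 × (ℕ × ℕ)) i => x.2.1 = 4 * i + 5 ∧
      (x.2.2 = 4 * i + 7 ∨ x.2.2 = 4 * (dat x.1).nx i + 6)) hn
      (PP.and (PP.eq hu (by fun_prop)) (PP.or (PP.eq hv (by fun_prop)) (PP.eq hv (by fun_prop))))
  · exact pp_exlt (r := fun (x : F3 × (ℕ × ℕ)) i => x.2.1 = 2 ∧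
      (x.2.2 = 4 * i + 6 ∨ x.2.2 = 4 * i + 7)) hn
      (PP.and (PP.eq hu (by fun_prop)) (PP.or (PP.eq hv (by fun_prop)) (PP.eq hv (by fun_prop))))
  · exact pp_exlt (r := fun (x : F3 × (ℕ × ℕ)) i => (x.2.1 = 4 * i + 6 ∨ x.2.1 = 4 * i + 7) ∧
      x.2.2 = 0) hn (PP.and (PP.or (PP.eq hu (by fun_prop)) (PP.eq hu (by fun_prop)))
      (PP.eq hv (by fun_prop)))
  · exact pp_exlt (r := fun (x : F3 × (ℕ × ℕ)) i => (dat x.1).att i ∧ x.2.1 = cp (dat x.1) i ∧
      x.2.2 = 4 * (dat x.1).lk i + 4) hn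
      (PP.and hat (PP.and (PP.eq hu (by fun_prop)) (PP.eq hv (by fun_prop))))
  · exact pp_exlt (r := fun (x : F3 × (ℕ × ℕ)) i => (x.2.1 = 4 * i + 6 ∨ x.2.1 = 4 * i + 7) ∧
      ¬ ((dat x.1).att i ∧ x.2.1 = cp (dat x.1) i) ∧ x.2.2 = 1) hn
      (PP.and (PP.or (PP.eq hu (by fun_prop)) (PP.eq hu (by fun_prop)))
      (PP.and (PP.not (PP.and hat (PP.eq hu hcp))) (PP.eq hv (by fun_prop))))
  · exact pp_exlt (r := fun (x : F3 × (ℕ × ℕ)) i => x.2.1 = 0 ∧
      (x.2.2 = 4 * i + 4 ∨ x.2.2 = 4 * i + 5)) hn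
      (PP.and (PP.eq hu (by fun_prop)) (PP.or (PP.eq hv (by fun_prop)) (PP.eq hv (by fun_prop))))
  · exact pp_exlt (r := fun (x : F3 × (ℕ × ℕ)) i => x.2.1 = 1 ∧
      (x.2.2 = 4 * i + 5 ∨ (x.2.2 = 4 * i + 4 ∧ ¬ (dat x.1).att i))) hn
      (PP.and (PP.eq hu (by fun_prop)) (PP.or (PP.eq hv (by fun_prop))
        (PP.and (PP.eq hv (by fun_prop)) (PP.not hat))))

theorem poly_red : NPC.Poly red := by
  classical
  have h1 := poly_lV
  have h4 : NPC.Poly (fun φ : F3 => lV φ ×ˢ lV φ) := by fun_prop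
  exact NPC.Poly.pair h1 (PP.filter (l := fun φ : F3 => lV φ ×ˢ lV φ)
    (r := fun (φ : F3) (a : ℕ × ℕ) => Ar (dat φ) a.1 a.2) h4 pp_Ar)

/-! ### Correctness -/

theorem mem_lV {φ : F3} {v : ℕ} : v ∈ lV φ ↔ v < 4 * (dat φ).n + 4 := List.mem_range

theorem isDigraph_red (φ : F3) : IsDigraph (red φ) := by
  classical
  refine ⟨List.nodup_range, (List.Nodup.product List.nodup_range List.nodup_range).filter _, ?_⟩
  rintro ⟨u, v⟩ he
  unfold red at he
  simp only [List.mem_filter, List.mem_product, decide_eq_true_eq] at he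
  exact ⟨he.1.1, he.1.2, ar_ne he.2⟩

theorem mem_A {φ : F3} (hb : Bounded3 φ) {u v : ℕ} : (u, v) ∈ (red φ).2 ↔ Ar (dat φ) u v := by
  unfold red
  simp only [List.mem_filter, List.mem_product, decide_eq_true_eq, mem_lV]
  exact ⟨fun h => h.2, fun h => ⟨ar_inV (good_dat hb) h, h⟩⟩

theorem red_correct {φ : F3} (hb : Bounded3 φ) : SAT3 φ ↔ AntistrongStrong (red φ) := by
  have hD := good_dat hb
  rw [sat3_iff_cells hb]
  constructor
  · rintro ⟨σ, hσ, h⟩
    refine ⟨isDigraph_red φ, S1 (dat φ) σ, S2 (dat φ) σ, ?_, ?_, ?_, ?_, ?_⟩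
    · rintro ⟨u, v⟩ ha
      exact (mem_A hb).2 ha.1
    · rintro ⟨u, v⟩ ha
      exact (mem_A hb).2 (a2_ar ha)
    · exact Set.disjoint_left.2 fun a ha ha' => ha.2 ha'
    · refine antistrong_S1 hD (fun v => mem_lV) ?_
      change 3 ≤ (lV φ).length
      unfold lV
      rw [List.length_range]
      omega
    · exact strong_S2 hD (fun v => mem_lV) hσ h
  · rintro ⟨-, A₁, A₂, h1, h2, h3, h4, h5⟩
    exact fwd hD (V := lV φ) (fun v => mem_lV) (A₁ := A₁) (A₂ := A₂)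
      (fun a ha => (mem_A hb).1 (h1 a ha)) (fun a ha => (mem_A hb).1 (h2 a ha))
      (fun a ha ha' => Set.disjoint_left.1 h3 ha ha') h4 h5

theorem hardPr_AS : HardPr IsDigraph AntistrongStrong :=
  hardPr_SAT3b.trans poly_red (fun φ _ => isDigraph_red φ) fun _ h => red_correct h.2.1

/-! ### Membership in NP -/

open Pool.Agent.H614R2.DPO (reachG mem_reachG poly_reachG)

theorem rtg_mono {α : Type} {r p : α → α → Prop} (h : ∀ a b, r a b → p a b) {x y : α}
    (h' : Relation.ReflTransGen r x y) : Relation.ReflTransGen p x y := by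
  induction h' with
  | refl => exact Relation.ReflTransGen.refl
  | tail _ hbc ih => exact ih.tail (h _ _ hbc)

/-- Arcs as a relation. -/
def rA (l : List (ℕ × ℕ)) (u v : ℕ) : Bool := decide ((u, v) ∈ l)

/-- The bipartite representation as a relation. -/
def rB (l : List (ℕ × ℕ)) (p q : ℕ × Bool) : Bool :=
  (!p.2 && (q.2 && decide ((p.1, q.1) ∈ l))) || (p.2 && (!q.2 && decide ((q.1, p.1) ∈ l)))

/-- The vertices of the bipartite representation. -/
def vB (V : List ℕ) : List (ℕ × Bool) := V ×ˢ [false, true]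

/-- The test for strong connectivity. -/
def StrongT (V : List ℕ) (l : List (ℕ × ℕ)) : Prop :=
  ∀ x ∈ V, ∀ y ∈ V, y ∈ reachG (rA l) V x

/-- The test for antistrong connectivity. -/
def AntiT (V : List ℕ) (l : List (ℕ × ℕ)) : Prop :=
  3 ≤ V.length ∧ ∀ x ∈ V, ∀ y ∈ V, x ≠ y → (y, true) ∈ reachG (rB l) (vB V) (x, false)

theorem strongT_iff {V : List ℕ} {l : List (ℕ × ℕ)} (h : ∀ a ∈ l, a.1 ∈ V ∧ a.2 ∈ V) :
    StrongT V l ↔ Strong V {a | a ∈ l} := by
  unfold StrongT Strong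
  refine forall₂_congr fun x hx => forall₂_congr fun y hy => ?_
  rw [mem_reachG]
  constructor
  · rintro ⟨-, h'⟩
    exact rtg_mono (fun a b hab => by simpa [rA] using hab.1) h'
  · intro h'
    exact ⟨hx, rtg_mono (fun a b hab => ⟨by simpa [rA] using hab,
      (h _ hab).2⟩) h'⟩

theorem antiT_iff {V : List ℕ} {l : List (ℕ × ℕ)} (h : ∀ a ∈ l, a.1 ∈ V ∧ a.2 ∈ V) :
    AntiT V l ↔ Antistrong V {a | a ∈ l} := by
  unfold AntiT Antistrong
  refine and_congr_right fun _ => forall₂_congr fun x hx => forall₂_congr fun y hy =>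
    forall_congr' fun _ => ?_
  rw [mem_reachG, trail_iff, SimpleGraph.reachable_iff_reflTransGen]
  have hadj : ∀ p q, rB l p q = true ↔ (BG {a | a ∈ l}).Adj p q := by
    rintro ⟨p, b⟩ ⟨q, c⟩
    unfold rB BG
    cases b <;> cases c <;> simp
  constructor
  · rintro ⟨-, h'⟩
    exact rtg_mono (fun a b hab => (hadj a b).1 hab.1) h'
  · intro h'
    refine ⟨?_, rtg_mono (fun a b hab => ⟨(hadj a b).2 hab, ?_⟩) h'⟩
    · simp [vB, hx]
    · obtain ⟨b, c⟩ := b
      have : b ∈ V := by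
        rcases hab with ⟨_, _, hab⟩ | ⟨_, _, hab⟩
        · exact (h _ hab).2
        · exact (h _ hab).1
      cases c <;> simp [vB, this]

/-- The test of a certificate. -/
def Ver (I : Inst) (w : List (ℕ × ℕ) × List (ℕ × ℕ)) : Prop :=
  IsDigraph I ∧ (∀ a ∈ w.1, a ∈ I.2) ∧ (∀ a ∈ w.2, a ∈ I.2) ∧ (∀ a ∈ w.1, a ∉ w.2) ∧
    AntiT I.1 w.1 ∧ StrongT I.1 w.2

theorem pp_isDigraph : PP IsDigraph := by
  unfold IsDigraph
  refine PP.and (Pool.Agent.Y592.OP.pp_nodup (by fun_prop)) (PP.and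
    (Pool.Agent.Y592.OP.pp_nodup (by fun_prop)) ?_)
  exact PP.ball (l := fun I : Inst => I.2) (r := fun I a => a.1 ∈ I.1 ∧ a.2 ∈ I.1 ∧ a.1 ≠ a.2)
    (by fun_prop) (PP.and (PP.mem (by fun_prop) (by fun_prop))
      (PP.and (PP.mem (by fun_prop) (by fun_prop)) (PP.ne (by fun_prop) (by fun_prop))))

theorem pp_strongT : PP (fun x : List ℕ × List (ℕ × ℕ) => StrongT x.1 x.2) := by
  unfold StrongT
  refine PP.ball (l := fun x : List ℕ × List (ℕ × ℕ) => x.1)
    (r := fun x u => ∀ y ∈ x.1, y ∈ reachG (rA x.2) x.1 u) (by fun_prop)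
    (PP.ball (l := fun x : (List ℕ × List (ℕ × ℕ)) × ℕ => x.1.1)
    (r := fun x y => y ∈ reachG (rA x.1.2) x.1.1 x.2) (by fun_prop) (PP.mem (by fun_prop) ?_))
  refine poly_reachG (R := fun x : ((List ℕ × List (ℕ × ℕ)) × ℕ) × ℕ => rA x.1.1.2)
    (S := fun x => x.1.1.1) (x := fun x => x.1.2) ?_ (by fun_prop) (by fun_prop)
  unfold rA
  fun_prop

theorem pp_antiT : PP (fun x : List ℕ × List (ℕ × ℕ) => AntiT x.1 x.2) := by
  unfold AntiT
  refine PP.and (PP.le (by fun_prop) (by fun_prop)) ?_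
  refine PP.ball (l := fun x : List ℕ × List (ℕ × ℕ) => x.1)
    (r := fun x u => ∀ y ∈ x.1, u ≠ y → (y, true) ∈ reachG (rB x.2) (vB x.1) (u, false))
    (by fun_prop)
    (PP.ball (l := fun x : (List ℕ × List (ℕ × ℕ)) × ℕ => x.1.1)
    (r := fun x y => x.2 ≠ y → (y, true) ∈ reachG (rB x.1.2) (vB x.1.1) (x.2, false))
    (by fun_prop) ?_)
  refine PP.congr (PP.or (PP.eq (f := fun x : ((List ℕ × List (ℕ × ℕ)) × ℕ) × ℕ => x.1.2)
    (g := fun x => x.2) (by fun_prop) (by fun_prop))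
    (PP.mem (f := fun x : ((List ℕ × List (ℕ × ℕ)) × ℕ) × ℕ => ((x.2, true) : ℕ × Bool))
      (l := fun x => reachG (rB x.1.1.2) (vB x.1.1.1) (x.1.2, false)) (by fun_prop) ?_))
    fun x => by
      rw [imp_iff_not_or, not_not]
  refine poly_reachG (R := fun x : ((List ℕ × List (ℕ × ℕ)) × ℕ) × ℕ => rB x.1.1.2)
    (S := fun x => vB x.1.1.1) (x := fun x => ((x.1.2, false) : ℕ × Bool)) ?_ ?_ (by fun_prop)
  · unfold rB
    fun_prop
  · unfold vB
    fun_prop

theorem pp_ver : PP (fun x : Inst × (List (ℕ × ℕ) × List (ℕ × ℕ)) => Ver x.1 x.2) := by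
  unfold Ver
  refine PP.and (pp_isDigraph.comp (by fun_prop)) (PP.and ?_ (PP.and ?_ (PP.and ?_ (PP.and ?_ ?_))))
  · exact PP.ball (l := fun x : Inst × (List (ℕ × ℕ) × List (ℕ × ℕ)) => x.2.1)
      (r := fun x a => a ∈ x.1.2) (by fun_prop) (PP.mem (by fun_prop) (by fun_prop))
  · exact PP.ball (l := fun x : Inst × (List (ℕ × ℕ) × List (ℕ × ℕ)) => x.2.2)
      (r := fun x a => a ∈ x.1.2) (by fun_prop) (PP.mem (by fun_prop) (by fun_prop))
  · exact PP.ball (l := fun x : Inst × (List (ℕ × ℕ) × List (ℕ × ℕ)) => x.2.1)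
      (r := fun x a => a ∉ x.2.2) (by fun_prop) (PP.not (PP.mem (by fun_prop) (by fun_prop)))
  · exact pp_antiT.comp (f := fun x : Inst × (List (ℕ × ℕ) × List (ℕ × ℕ)) => (x.1.1, x.2.1))
      (by fun_prop)
  · exact pp_strongT.comp (f := fun x : Inst × (List (ℕ × ℕ) × List (ℕ × ℕ)) => (x.1.1, x.2.2))
      (by fun_prop)

theorem of_ver {I : Inst} {w : List (ℕ × ℕ) × List (ℕ × ℕ)} (h : Ver I w) :
    AntistrongStrong I := by
  obtain ⟨h1, h2, h3, h4, h5, h6⟩ := h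
  refine ⟨h1, {a | a ∈ w.1}, {a | a ∈ w.2}, h2, h3, Set.disjoint_left.2 h4, ?_, ?_⟩
  · exact (antiT_iff fun a ha => ⟨(h1.2.2 a (h2 a ha)).1, (h1.2.2 a (h2 a ha)).2.1⟩).1 h5
  · exact (strongT_iff fun a ha => ⟨(h1.2.2 a (h3 a ha)).1, (h1.2.2 a (h3 a ha)).2.1⟩).1 h6

theorem ver_of {I : Inst} (h : AntistrongStrong I) : ∃ w : List (ℕ × ℕ) × List (ℕ × ℕ),
    sz w ≤ (2 * Polynomial.X + 1 : Polynomial ℕ).eval (sz I) ∧ Ver I w := by
  classical
  obtain ⟨h1, A₁, A₂, h2, h3, h4, h5, h6⟩ := h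
  have hm : ∀ M : Set (ℕ × ℕ), (∀ a ∈ M, a ∈ I.2) →
      {a | a ∈ I.2.filter (fun e => decide (e ∈ M))} = M := by
    intro M h
    ext e
    simp only [List.mem_filter, decide_eq_true_eq]
    exact ⟨fun h => h.2, fun he => ⟨h e he, he⟩⟩
  have hm' : ∀ M : Set (ℕ × ℕ), (∀ a ∈ M, a ∈ I.2) → ∀ a,
      a ∈ I.2.filter (fun e => decide (e ∈ M)) ↔ a ∈ M := fun M h a =>
    Set.ext_iff.1 (hm M h) a
  refine ⟨(I.2.filter (fun e => decide (e ∈ A₁)), I.2.filter (fun e => decide (e ∈ A₂))), ?_, h1,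
    ?_, ?_, ?_, ?_, ?_⟩
  · have h7 := sz_sublist (List.filter_sublist (p := fun e => decide (e ∈ A₁)) (l := I.2))
    have h8 := sz_sublist (List.filter_sublist (p := fun e => decide (e ∈ A₂)) (l := I.2))
    have h9 : sz I = sz I.1 + sz I.2 + 1 := by
      obtain ⟨a, b⟩ := I
      simp
    simp only [sz_pair, Polynomial.eval_add, Polynomial.eval_mul, Polynomial.eval_X,
      Polynomial.eval_ofNat, Polynomial.eval_one]
    omega
  · exact fun a ha => (List.mem_filter.1 ha).1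
  · exact fun a ha => (List.mem_filter.1 ha).1
  · intro a ha ha'
    exact Set.disjoint_left.1 h4 ((hm' A₁ h2 a).1 ha) ((hm' A₂ h3 a).1 ha')
  · refine (antiT_iff fun a ha => ?_).2 (by rw [hm A₁ h2]; exact h5)
    have := h1.2.2 a (List.mem_filter.1 ha).1
    exact ⟨this.1, this.2.1⟩
  · refine (strongT_iff fun a ha => ?_).2 (by rw [hm A₂ h3]; exact h6)
    have := h1.2.2 a (List.mem_filter.1 ha).1
    exact ⟨this.1, this.2.1⟩

theorem inNPP : InNPP AntistrongStrong :=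
  inNPP_of_pp pp_ver (2 * Polynomial.X + 1) (fun _ h => ver_of h) fun _ _ h => of_ver h

end Pool.Agent.R544.AS
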