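import Pool.Agent.R544.AS.Defs

/-!
# Forward antidirected trails and the bipartite representation
-/

set_option autoImplicit false

namespace Pool.Agent.R544.AS

/-- The bipartite representation: `(u, false)` and `(v, true)` are adjacent for each arc `u v`. -/
def BG (A : Set (ℕ × ℕ)) : SimpleGraph (ℕ × Bool) where
  Adj p q := (p.2 = false ∧ q.2 = true ∧ (p.1, q.1) ∈ A) ∨
    (p.2 = true ∧ q.2 = false ∧ (q.1, p.1) ∈ A)
  symm := ⟨fun p q h => by
    rcases h with ⟨h1, h2, h3⟩ | ⟨h1, h2, h3⟩
    · exact Or.inr ⟨h2, h1, h3⟩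
    · exact Or.inl ⟨h2, h1, h3⟩⟩
  loopless := ⟨fun p h => by
    rcases h with ⟨h1, h2, h3⟩ | ⟨h1, h2, h3⟩ <;> simp [h1] at h2⟩

variable {A : Set (ℕ × ℕ)}

theorem bg_arc {u v : ℕ} (h : (u, v) ∈ A) : (BG A).Adj (u, false) (v, true) :=
  Or.inl ⟨rfl, rfl, h⟩

theorem trail_last {x y : ℕ} (h : FwdTrail A x y) :
    ∃ u, (u, y) ∈ A ∧ (u = x ∨ ∃ w, w ≠ y ∧ (u, w) ∈ A) := by
  obtain ⟨k, v, h0, h1, h2, h3⟩ := h
  have h4 := h2 (2 * k) le_rfl
  rw [trArc, if_pos (by omega), h1] at h4
  refine ⟨v (2 * k), h4, ?_⟩
  cases k with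
  | zero => exact Or.inl h0
  | succ k =>
    right
    have h5 := h2 (2 * k + 1) (by omega)
    rw [trArc, if_neg (by omega)] at h5
    refine ⟨v (2 * k + 1), ?_, h5⟩
    intro he
    have := h3 (2 * k + 1) (by omega) (2 * (k + 1)) le_rfl (by
      rw [trArc, trArc, if_neg (by omega), if_pos (by omega), he, h1]
      rfl)
    omega

theorem trail_first {x y : ℕ} (h : FwdTrail A x y) :
    ∃ w, (x, w) ∈ A ∧ (w = y ∨ ∃ u, u ≠ x ∧ (u, w) ∈ A) := by
  obtain ⟨k, v, h0, h1, h2, h3⟩ := h
  have h4 := h2 0 (by omega)
  rw [trArc, if_pos (by omega), h0] at h4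
  refine ⟨v 1, h4, ?_⟩
  cases k with
  | zero => exact Or.inl h1
  | succ k =>
    right
    have h5 := h2 1 (by omega)
    rw [trArc, if_neg (by omega)] at h5
    refine ⟨v 2, ?_, h5⟩
    intro he
    have := h3 1 (by omega) 0 (by omega) (by
      rw [trArc, trArc, if_neg (by omega), if_pos (by omega), h0]
      exact Prod.ext he rfl)
    omega

theorem reachable_of_trail {x y : ℕ} (h : FwdTrail A x y) :
    (BG A).Reachable (x, false) (y, true) := by
  obtain ⟨k, v, h0, h1, h2, -⟩ := h
  have key : ∀ i ≤ 2 * k + 1, (BG A).Reachable (x, false) (v i, decide (i % 2 = 1)) := by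
    intro i
    induction i with
    | zero =>
      intro _
      rw [h0]
      exact SimpleGraph.Reachable.refl _
    | succ i ih =>
      intro hi
      refine (ih (by omega)).trans ?_
      have h4 := h2 i (by omega)
      rw [trArc] at h4
      apply SimpleGraph.Adj.reachable
      split_ifs at h4 with hc
      · left
        refine ⟨?_, ?_, h4⟩
        · simp only [decide_eq_false_iff_not]; omega
        · simp only [decide_eq_true_eq]; omega
      · right
        refine ⟨?_, ?_, h4⟩
        · simp only [decide_eq_true_eq]; omega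
        · simp only [decide_eq_false_iff_not]; omega
  have := key (2 * k + 1) le_rfl
  rw [h1, decide_eq_true (by omega)] at this
  exact this

theorem trail_of_reachable {x y : ℕ} (h : (BG A).Reachable (x, false) (y, true)) :
    FwdTrail A x y := by
  classical
  obtain ⟨p, hp⟩ := h.exists_isPath
  have hpar : ∀ i ≤ p.length, (p.getVert i).2 = decide (i % 2 = 1) := by
    intro i
    induction i with
    | zero => intro _; simp
    | succ i ih =>
      intro hi
      have h1 := ih (by omega)
      have h2 := p.adj_getVert_succ (show i < p.length by omega)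
      rcases h2 with ⟨h2, h3, -⟩ | ⟨h2, h3, -⟩
      · rw [h3]
        rw [h2] at h1
        have : ¬ i % 2 = 1 := by simpa using h1.symm
        symm
        rw [decide_eq_true_iff]
        omega
      · rw [h3]
        rw [h2] at h1
        have : i % 2 = 1 := by simpa using h1.symm
        symm
        rw [decide_eq_false_iff_not]
        omega
  have hlen : p.length % 2 = 1 := by
    have := hpar p.length le_rfl
    rw [p.getVert_length] at this
    simpa using this.symm
  obtain ⟨k, hk⟩ : ∃ k, p.length = 2 * k + 1 := ⟨p.length / 2, by omega⟩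
  have hinj : ∀ i ≤ p.length, ∀ j ≤ p.length, p.getVert i = p.getVert j → i = j := by
    intro i hi j hj he
    exact hp.getVert_injOn (by simpa using hi) (by simpa using hj) he
  refine ⟨k, fun i => (p.getVert i).1, by simp, ?_, ?_, ?_⟩
  · simp only
    rw [← hk, p.getVert_length]
  · intro i hi
    have h2 := p.adj_getVert_succ (show i < p.length by omega)
    have h3 := hpar i (by omega)
    rw [trArc]
    split_ifs with hc
    · rcases h2 with ⟨_, _, h2⟩ | ⟨h4, _, _⟩
      · exact h2
      · rw [h4] at h3
        have : i % 2 = 1 := by simpa using h3.symm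
        omega
    · rcases h2 with ⟨h4, _, _⟩ | ⟨_, _, h2⟩
      · rw [h4] at h3
        have : ¬ i % 2 = 1 := by simpa using h3.symm
        omega
      · exact h2
  · intro i hi j hj he
    have q1 := hpar i (by omega)
    have q2 := hpar (i + 1) (by omega)
    have q3 := hpar j (by omega)
    have q4 := hpar (j + 1) (by omega)
    rw [trArc, trArc] at he
    split_ifs at he with c1 c2 c2
    · exact hinj i (by omega) j (by omega) (Prod.ext (Prod.ext_iff.1 he).1 (by
        rw [q1, q3, decide_eq_decide]; omega))
    · exfalso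
      have e1 := hinj i (by omega) (j + 1) (by omega) (Prod.ext (Prod.ext_iff.1 he).1 (by
        rw [q1, q4, decide_eq_decide]; omega))
      have e2 := hinj (i + 1) (by omega) j (by omega) (Prod.ext (Prod.ext_iff.1 he).2 (by
        rw [q2, q3, decide_eq_decide]; omega))
      omega
    · exfalso
      have e1 := hinj (i + 1) (by omega) j (by omega) (Prod.ext (Prod.ext_iff.1 he).1 (by
        rw [q2, q3, decide_eq_decide]; omega))
      have e2 := hinj i (by omega) (j + 1) (by omega) (Prod.ext (Prod.ext_iff.1 he).2 (by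
        rw [q1, q4, decide_eq_decide]; omega))
      omega
    · exact hinj i (by omega) j (by omega) (Prod.ext (Prod.ext_iff.1 he).2 (by
        rw [q1, q3, decide_eq_decide]; omega))

theorem trail_iff {x y : ℕ} : FwdTrail A x y ↔ (BG A).Reachable (x, false) (y, true) :=
  ⟨reachable_of_trail, trail_of_reachable⟩

end Pool.Agent.R544.AS
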